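import Pool.Agent.H15.Loeb

set_option autoImplicit false

namespace Pool.Agent.Results.MP_5090e2_pr.Limit

open Filter Topology MeasureTheory ProbabilityTheory Set NNReal

noncomputable section

/-- `P` is the transition semigroup of a continuous-time chain on the finite set `S`, with
stationary distribution `π`. -/
def IsChain {S : Type} [Fintype S] [DecidableEq S] (P : ℝ≥0 → Matrix S S ℝ) (π : S → ℝ) : Prop :=
  (∀ t x y, 0 ≤ P t x y) ∧ (∀ t x, ∑ y, P t x y = 1) ∧ P 0 = 1 ∧ (∀ s t, P (s + t) = P s * P t) ∧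
  (∀ x, 0 ≤ π x) ∧ ∑ x, π x = 1 ∧ ∀ t y, ∑ x, π x * P t x y = π y

/-- Total variation distance `d_x(t)` of a finite chain. -/
def d {S : Type} [Fintype S] (P : ℝ≥0 → Matrix S S ℝ) (π : S → ℝ) (x : S) (t : ℝ≥0) : ℝ :=
  ⨆ A : Finset S, |∑ y ∈ A, P t x y - ∑ y ∈ A, π y|

/-- `κ` is the transition function of a time-homogeneous Markov process on the measurable space
`E`, with stationary distribution `ν`. -/
def IsMarkov {E : Type} [MeasurableSpace E] (κ : ℝ≥0 → Kernel E E) (ν : Measure E) : Prop :=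
  (∀ t, IsMarkovKernel (κ t)) ∧ κ 0 = Kernel.id ∧ (∀ s t, κ (s + t) = κ t ∘ₖ κ s) ∧
  IsProbabilityMeasure ν ∧ ∀ t, ν.bind (κ t) = ν

/-- Total variation distance `d_x(t)` of a process on a general state space. -/
def D {E : Type} [MeasurableSpace E] (κ : ℝ≥0 → Kernel E E) (ν : Measure E) (x : E) (t : ℝ≥0) : ℝ :=
  ⨆ B : {B : Set E // MeasurableSet B}, |(κ t x).real B - ν.real B|

/-- Nonincreasing functions `[0,∞) → [0,1]`. -/
def InM (f : ℝ≥0 → ℝ) : Prop := Antitone f ∧ ∀ t, f t ∈ Icc (0 : ℝ) 1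

/-- Bounded functionals that are continuous on the space of nonincreasing functions for
pointwise convergence at continuity points of the limit. -/
def Test (Φ : (ℝ≥0 → ℝ) → ℝ) : Prop := (∃ C, ∀ f, |Φ f| ≤ C) ∧
  ∀ (f : ℝ≥0 → ℝ) (g : ℕ → ℝ≥0 → ℝ), InM f → (∀ j, InM (g j)) →
    (∀ t, ContinuousAt f t → Tendsto (fun j => g j t) atTop (𝓝 (f t))) →
    Tendsto (fun j => Φ (g j)) atTop (𝓝 (Φ f))

open H15.Loeb

lemma sup_eq {S : Type} [Fintype S] (μ π : S → ℝ) :
    ⨆ A : Finset S, |∑ y ∈ A, μ y - ∑ y ∈ A, π y| = ⨆ A : Set S, |ms μ A - ms π A| := by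
  refine Function.Surjective.iSup_congr (fun A => (A : Set S)) (fun A => ⟨(toFinite A).toFinset, by simp⟩)
    fun A => ?_
  classical
  simp [ms, indicator]

lemma d_M {S : Type} [Fintype S] [DecidableEq S] {P : ℝ≥0 → Matrix S S ℝ} {π : S → ℝ}
    (h : IsChain P π) (x : S) : InM (d P π x) := by
  obtain ⟨h1, h2, -, h4, h5, h6, h7⟩ := h
  have b := fun t (A : Finset S) => le_ciSup (f := fun A : Finset S =>
    |∑ y ∈ A, P t x y - ∑ y ∈ A, π y|) (Finite.bddAbove_range _) A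
  refine ⟨fun t u htu => ?_, fun t => ⟨(abs_nonneg _).trans (b t ∅), ?_⟩⟩
  · obtain ⟨s, rfl⟩ := exists_add_of_le htu
    refine ciSup_le fun A => ?_
    have e : ∑ y ∈ A, P (t + s) x y - ∑ y ∈ A, π y = ∑ z, (P t x z - π z) * ∑ y ∈ A, P s z y := by
      simp only [h4, Matrix.mul_apply, sub_mul, Finset.sum_sub_distrib, Finset.mul_sum]
      rw [Finset.sum_comm, Finset.sum_comm (s := Finset.univ) (t := A)
        (f := fun z y => π z * P s z y)]
      simp only [h7]
    have m : ∀ z, 0 ≤ ∑ y ∈ A, P s z y ∧ ∑ y ∈ A, P s z y ≤ 1 := fun z =>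
      ⟨Finset.sum_nonneg fun _ _ => h1 _ _ _, (Finset.sum_le_sum_of_subset_of_nonneg
        (Finset.subset_univ _) fun _ _ _ => h1 _ _ _).trans (h2 s z).le⟩
    have b1 := (le_abs_self _).trans (b t (Finset.univ.filter fun z => 0 ≤ P t x z - π z))
    have b2 := (neg_le_abs _).trans (b t (Finset.univ.filter fun z => P t x z - π z ≤ 0))
    rw [← Finset.sum_sub_distrib, Finset.sum_filter] at b1 b2
    rw [e]
    refine abs_le.2 ⟨neg_le.1 (le_trans (neg_le_neg (Finset.sum_le_sum fun z _ => ?_)) b2),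
      le_trans (Finset.sum_le_sum fun z _ => ?_) b1⟩ <;> split_ifs <;> nlinarith [m z]
  · rw [d, sup_eq]
    have a : Pv (P t x) := ⟨h1 t x, h2 t x⟩
    have c : Pv π := ⟨h5, h6⟩
    exact ciSup_le fun A => abs_le.2 ⟨by linarith [(ms_mem a A).1, (ms_mem c A).2],
      by linarith [(ms_mem a A).2, (ms_mem c A).1]⟩

lemma test_lim {Φ : (ℝ≥0 → ℝ) → ℝ} (hΦ : Test Φ) {g : ℕ → ℝ≥0 → ℝ} (hg : ∀ n, InM (g n)) :
    Φ (fun t => lm fun n => g n t) = lm fun n => Φ (g n) := by
  obtain ⟨⟨C, hC⟩, hΦ⟩ := hΦ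
  set f : ℝ≥0 → ℝ := fun t => lm fun n => g n t
  have t1 : ∀ t, Tendsto (fun n => g n t) U (𝓝 (f t)) := fun t => tl fun n => (hg n).2 t
  have t2 := tl fun n => abs_le.1 (hC (g n))
  have hf : InM f := ⟨fun s t h => le_of_tendsto_of_tendsto' (t1 t) (t1 s) fun n => (hg n).1 h,
    fun t => lm_mem fun n => (hg n).2 t⟩
  obtain ⟨q, hq⟩ := exists_surjective_nat ℚ
  have : ∀ j : ℕ, ∃ n, dist (Φ (g n)) (lm fun n => Φ (g n)) < 1 / (j + 1) ∧
      ∀ i ∈ Finset.range j, dist (g n (Real.toNNReal (q i))) (f (Real.toNNReal (q i))) <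
        1 / (j + 1) := fun j =>
    ((Metric.tendsto_nhds.1 t2 _ Nat.one_div_pos_of_nat).and ((eventually_all_finset _).2 fun i _ =>
      Metric.tendsto_nhds.1 (t1 _) _ Nat.one_div_pos_of_nat)).exists
  choose n h1 h2 using this
  have t3 : ∀ a : ℚ, Tendsto (fun j => g (n j) (Real.toNNReal a)) atTop (𝓝 (f (Real.toNNReal a))) :=
    fun a => by
    obtain ⟨i, rfl⟩ := hq a
    exact tendsto_iff_dist_tendsto_zero.2 (squeeze_zero' (Eventually.of_forall fun _ => dist_nonneg)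
      ((eventually_gt_atTop i).mono fun j hj => (h2 j i (Finset.mem_range.2 hj)).le)
      tendsto_one_div_add_atTop_nhds_zero_nat)
  refine tendsto_nhds_unique (hΦ f (fun j => g (n j)) hf (fun j => hg _) fun t ht => ?_)
    (tendsto_iff_dist_tendsto_zero.2 (squeeze_zero (fun _ => dist_nonneg) (fun j => (h1 j).le)
      tendsto_one_div_add_atTop_nhds_zero_nat))
  refine tendsto_order.2 ⟨fun c hc => ?_, fun c hc => ?_⟩
  · obtain ⟨δ, d0, hδ⟩ := Metric.eventually_nhds_iff.1 (ht.eventually (lt_mem_nhds hc))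
    obtain ⟨a, a1, a2⟩ := exists_rat_btwn (lt_add_of_pos_right (t : ℝ) d0)
    have e : ((Real.toNNReal a : ℝ≥0) : ℝ) = a := Real.coe_toNNReal _ (t.2.trans a1.le)
    filter_upwards [(t3 a).eventually (lt_mem_nhds (hδ (y := Real.toNNReal a) (by
      rw [NNReal.dist_eq, e, abs_lt]; constructor <;> linarith)))] with j hj
    exact hj.trans_le ((hg _).1 (by rw [← NNReal.coe_le_coe, e]; exact a1.le))
  · obtain ⟨δ, d0, hδ⟩ := Metric.eventually_nhds_iff.1 (ht.eventually (gt_mem_nhds hc))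
    obtain ⟨a, a1, a2⟩ := exists_rat_btwn (sub_lt_self (t : ℝ) d0)
    have e : ((Real.toNNReal a : ℝ≥0) : ℝ) ≤ t := by
      rw [Real.coe_toNNReal']; exact max_le a2.le t.2
    have e' : (a : ℝ) ≤ (Real.toNNReal a : ℝ≥0) := Real.le_coe_toNNReal _
    filter_upwards [(t3 a).eventually (gt_mem_nhds (hδ (y := Real.toNNReal a) (by
      rw [NNReal.dist_eq, abs_lt]; constructor <;> linarith)))] with j hj
    exact lt_of_le_of_lt ((hg _).1 e) hj

/-- Every weak limit of the distance profiles of finite chains started from stationarity is the law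
of the distance profile of a stationary Markov process on a general state space. -/
theorem result (S : ℕ → Type) [∀ n, Fintype (S n)] [∀ n, DecidableEq (S n)]
    (P : ∀ n, ℝ≥0 → Matrix (S n) (S n) ℝ) (π : ∀ n, S n → ℝ) (h : ∀ n, IsChain (P n) (π n)) :
    ∃ (E : Type) (_ : MeasurableSpace E) (κ : ℝ≥0 → Kernel E E) (ν : Measure E),
      IsMarkov κ ν ∧ (∀ x, InM (D κ ν x)) ∧ (∀ t, Measurable fun x => D κ ν x t) ∧
      ∀ Φ, Test Φ → (Measurable fun x => Φ (D κ ν x)) ∧
        ∀ l, Tendsto (fun n => ∑ x, π n x * Φ (d (P n) (π n) x)) atTop (𝓝 l) →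
          ∫ x, Φ (D κ ν x) ∂ν = l := by
  have hπ : ∀ n, Pv (π n) := fun n => ⟨(h n).2.2.2.2.1, (h n).2.2.2.2.2.1⟩
  have hP : ∀ t n x, Pv (P n t x) := fun t n x => ⟨(h n).1 t x, (h n).2.1 t x⟩
  haveI : ∀ n, Nonempty (S n) := fun n => by
    by_contra a
    rw [not_nonempty_iff] at a
    simpa using (hπ n).2
  have e : ∀ x, D (fun t => ker (hP t)) (L π) x = fun t => lm fun n => d (P n) (π n) (x n) t :=
    fun x => funext fun t => by
      simp only [d, sup_eq]
      exact L_tv (fun n => hP t n (x n)) hπ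
  refine ⟨E S, inferInstance, fun t => ker (hP t), L π, ⟨fun t => ⟨fun x => ?_⟩, ?_, fun s t => ?_,
    inferInstance, fun t => L_bind hπ (hP t) hπ fun n z => ((h n).2.2.2.2.2.2 t z).symm⟩,
    fun x => ?_, fun t => ?_, fun Φ hΦ => ?_⟩
  · exact (inferInstance : IsProbabilityMeasure (L fun n => P n t (x n)))
  · ext1 x
    refine L_ext (fun n => hP 0 n (x n)) fun A => ?_
    rw [Kernel.id_apply, Measure.dirac_apply' _ (I_meas A), lm_eq (a := (I A).indicator 1 x)
      ((t_ind A x).congr fun n => by simp [ms, (h n).2.2.1, Matrix.one_apply])]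
    by_cases a : x ∈ I A <;> simp [a]
  · ext1 x
    rw [Kernel.comp_apply]
    exact (L_bind (fun n => hP s n (x n)) (hP t) (fun n => hP (s + t) n (x n)) fun n z => by
      rw [(h n).2.2.2.1, Matrix.mul_apply]).symm
  · rw [e]
    exact ⟨fun s t a => le_of_tendsto_of_tendsto' (tl fun n => (d_M (h n) _).2 t)
      (tl fun n => (d_M (h n) _).2 s) fun n => (d_M (h n) _).1 a,
      fun t => lm_mem fun n => (d_M (h n) _).2 t⟩
  · simp only [e]
    exact g_meas (f := fun n y => d (P n) (π n) y t) fun n y => (d_M (h n) y).2 t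
  · have e' : (fun x => Φ (D (fun t => ker (hP t)) (L π) x)) =
        g fun n y => Φ (d (P n) (π n) y) := funext fun x => by
      rw [e]; exact test_lim hΦ fun n => d_M (h n) _
    obtain ⟨C, hC⟩ := hΦ.1
    rw [e']
    refine ⟨g_meas fun n y => abs_le.1 (hC _), fun l hl => ?_⟩
    rw [int_g hπ fun n y => abs_le.1 (hC _)]
    exact lm_eq (hl.mono_left Nat.hyperfilter_le_atTop)

end

end Pool.Agent.Results.MP_5090e2_pr.Limit
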